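import Pool.Agent.TH120.HM.Cor
import Pool.Agent.TH550.NRZ.Elim

/-!
# Near relations between Hoffman elements

The near relations at one scale, with an explicit exponent, between `1, ζ(2), ζ(3)` and `r` arbitrary further real
numbers, for instance Hoffman elements, span a space of dimension at most `r`.

The proof uses the library's measure of linear independence of `1, ζ(2), ζ(3)` with the exponent `227`
(`Pool.Agent.TH120.HM.measure_all`) and the weighted elimination of arbitrary numbers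
(`Pool.Agent.TH550.NRZ.product_ineq`, `Pool.Agent.TH550.NRZ.sparse_unif`).
-/

set_option autoImplicit false

namespace Pool.Agent.Results.MP_c2d7b4_nt.NearRelations

open Real

/-- `trunc [s_1, ..., s_r] m` is the sum of `∏ n_i ^ (-s_i)` over `m > n_1 > ... > n_r ≥ 1` -/
noncomputable def trunc : List ℕ → ℕ → ℝ
  | [], _ => 1
  | s :: l, m => ∑ j ∈ Finset.Ico 1 m, trunc l j / (j : ℝ) ^ s

/-- the multiple zeta value `ζ(s_1, ..., s_r)`, the sum of `∏ n_i ^ (-s_i)` over `n_1 > ... > n_r ≥ 1` -/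
noncomputable def mzv : List ℕ → ℝ
  | [] => 1
  | s :: l => ∑' m : ℕ, trunc l (m + 1) / ((m + 1 : ℕ) : ℝ) ^ s

/-- the value `a_0 + a_1 ζ(2) + a_2 ζ(3) + e_1 t_1 + ... + e_r t_r` -/
noncomputable def form {r : ℕ} (t : Fin r → ℝ) (a : Fin 3 → ℤ) (e : Fin r → ℤ) : ℝ :=
  (a 0 : ℝ) + a 1 * mzv [2] + a 2 * mzv [3] + ∑ i, (e i : ℝ) * t i

/-- The height `max (|a_0|, |a_1|, |a_2|, |c|)` of the integer vector `v = (a_0, a_1, a_2, c)` (`‖ ‖` is the maximum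
norm). -/
noncomputable def height (v : (Fin 3 → ℤ) × ℤ) : ℝ := max ‖v.1‖ ‖v.2‖

/-- The primitive integer vectors `v = (a_0, a_1, a_2, c)`, `c > 0`, of height at most `X` with
`|a_0 + a_1 ζ(2) + a_2 ζ(3) + c t| ≤ (height v) ^ (-w)`. -/
def Near (t w X : ℝ) : Set ((Fin 3 → ℤ) × ℤ) :=
  {v | 0 < v.2 ∧ (∀ d : ℤ, (∀ i, d ∣ v.1 i) → d ∣ v.2 → IsUnit d) ∧ height v ≤ X ∧
    |(v.1 0 : ℝ) + v.1 1 * mzv [2] + v.1 2 * mzv [3] + v.2 * t| ≤ height v ^ (-w)}

open Pool.Agent.TH647.NR Pool.Agent.W472.AC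

lemma mzv_one (s : ℕ) : mzv [s] = ∑' n : ℕ, 1 / ((n : ℝ) + 1) ^ s := by
  rw [mzv]
  refine tsum_congr fun n => ?_
  rw [trunc]
  push_cast
  rfl

lemma meas : ∃ c : ℝ, 0 < c ∧ Meas (m := 2) ![1, mzv [2], mzv [3]] 227 c := by
  obtain ⟨c, hc, h⟩ := Pool.Agent.TH120.HM.measure_all
  refine ⟨c, hc, fun a ha H hH hb => ?_⟩
  have hH0 : 0 < H := by linarith
  have h1 := h (a 0) (a 1) (a 2) H hH (by
    rintro ⟨h0, h1, h2⟩
    apply ha
    funext i
    fin_cases i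
    · exact h0
    · exact h1
    · exact h2) (hb 1) (hb 2)
  have h2 : c * H ^ (-227 : ℝ) ≤ |∑ j, (a j : ℝ) * (![1, mzv [2], mzv [3]] : Fin 3 → ℝ) j| := by
    have e : ∑ j, (a j : ℝ) * (![1, mzv [2], mzv [3]] : Fin 3 → ℝ) j =
        (a 0 : ℝ) + a 1 * mzv [2] + a 2 * mzv [3] := by
      simp [Fin.sum_univ_three]
    rw [e, mzv_one, mzv_one]
    exact h1
  have h3 : H ^ (227 : ℝ) * H ^ (-227 : ℝ) = 1 := by
    rw [← Real.rpow_add hH0]
    simp
  have h4 : (0 : ℝ) ≤ H ^ (227 : ℝ) := by positivity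
  calc c = H ^ (227 : ℝ) * (c * H ^ (-227 : ℝ)) := by linear_combination (-c) * h3
    _ ≤ _ := mul_le_mul_of_nonneg_left h2 h4

/-- the product inequality -/
lemma product (r : ℕ) : ∃ c : ℝ, 0 < c ∧ ∀ (t : Fin r → ℝ)
      (a : Fin (r + 1) → Fin 3 → ℤ) (e : Fin (r + 1) → Fin r → ℤ) (h : Fin (r + 1) → ℝ),
      LinearIndependent ℤ (fun k => (a k, e k)) →
      (∀ k, 1 ≤ h k ∧ (∀ i, |(a k i : ℝ)| ≤ h k) ∧ ∀ i, |(e k i : ℝ)| ≤ h k) →
      c * ∏ k, (h k ^ 228)⁻¹ ≤ ∑ k, |form t (a k) (e k)| / h k := by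
  obtain ⟨c, hc, hm⟩ := meas
  obtain ⟨c', hc', h'⟩ := Pool.Agent.TH550.NRZ.product_ineq (m := 2)
    ![1, mzv [2], mzv [3]] 227 c (by norm_num) hc hm r
  refine ⟨c', hc', fun t a e h hli hh => ?_⟩
  have h2 := h' t a e hli h (fun i => (hh i).1) (fun i => (hh i).2.1) (fun i => (hh i).2.2)
  have e1 : ∀ k, h k ^ (-((227 : ℝ) + 1)) = (h k ^ 228)⁻¹ := by
    intro k
    have : (0 : ℝ) ≤ h k := by linarith [(hh k).1]
    rw [Real.rpow_neg this]
    congr 1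
    rw [← Real.rpow_natCast]
    norm_num
  have e2 : ∀ k, (∑ j, (a k j : ℝ) * (![1, mzv [2], mzv [3]] : Fin 3 → ℝ) j) + ∑ j, (e k j : ℝ) * t j =
      form t (a k) (e k) := by
    intro k
    rw [form]
    simp [Fin.sum_univ_three]
  simp only [e1, e2] at h2
  exact h2

/-- from the product inequality to one scale -/
lemma scale_aux {r : ℕ} {c X : ℝ} (hX : 1 ≤ X) (L : Fin (r + 1) → ℝ)
    (h1 : c * ∏ _k : Fin (r + 1), (X ^ 228)⁻¹ ≤ ∑ k, L k / X)
    (hL : ∀ k, L k < c / ((r : ℝ) + 1) / X ^ (228 * r + 227)) : False := by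
  have hX0 : 0 < X := by linarith
  have h2 : ∑ k, L k / X < ∑ _k : Fin (r + 1), c / ((r : ℝ) + 1) / X ^ (228 * r + 227) / X := by
    refine Finset.sum_lt_sum_of_nonempty ⟨0, Finset.mem_univ _⟩ fun k _ => ?_
    exact div_lt_div_of_pos_right (hL k) hX0
  rw [Finset.sum_const, Finset.card_univ, Fintype.card_fin, nsmul_eq_mul] at h2
  rw [Finset.prod_const, Finset.card_univ, Fintype.card_fin] at h1
  have e1 : ((r + 1 : ℕ) : ℝ) * (c / ((r : ℝ) + 1) / X ^ (228 * r + 227) / X) = c * (X ^ 228)⁻¹ ^ (r + 1) := by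
    have e2 : (X ^ 228)⁻¹ ^ (r + 1) = (X ^ (228 * r + 227) * X)⁻¹ := by
      rw [inv_pow, ← pow_mul, ← pow_succ]
      congr 2
    rw [e2]
    push_cast
    have : (0 : ℝ) < (r : ℝ) + 1 := by positivity
    field_simp
  linarith

/-- near relations at one scale are linearly dependent -/
lemma scale (r : ℕ) : ∃ c : ℝ, 0 < c ∧ ∀ (t : Fin r → ℝ) (X : ℝ), 1 ≤ X →
      ∀ (a : Fin (r + 1) → Fin 3 → ℤ) (e : Fin (r + 1) → Fin r → ℤ),
      (∀ k, (∀ i, |(a k i : ℝ)| ≤ X) ∧ (∀ i, |(e k i : ℝ)| ≤ X) ∧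
        |form t (a k) (e k)| < c / X ^ (228 * r + 227)) →
      ¬ LinearIndependent ℤ (fun k => (a k, e k)) := by
  obtain ⟨c, hc, h⟩ := product r
  refine ⟨c / ((r : ℝ) + 1), by positivity, fun t X hX a e hae hli => ?_⟩
  exact scale_aux hX _ (h t a e (fun _ => X) hli (fun k => ⟨hX, (hae k).1, (hae k).2.1⟩))
    (fun k => (hae k).2.2)

/-- the product inequality for vectors indexed by a finite set of words -/
lemma hoffman (r : ℕ) : ∃ c : ℝ, 0 < c ∧ ∀ W : Finset (List ℕ), [] ∈ W → [2] ∈ W → [3] ∈ W → W.card = r + 3 →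
      ∀ (b : Fin (r + 1) → {w // w ∈ W} → ℤ) (h : Fin (r + 1) → ℝ), LinearIndependent ℤ b →
      (∀ k, 1 ≤ h k ∧ ∀ w, |(b k w : ℝ)| ≤ h k) →
      c * ∏ k, (h k ^ 228)⁻¹ ≤ ∑ k, |∑ w, (b k w : ℝ) * mzv w.1| / h k := by
  classical
  obtain ⟨c, hc, h'⟩ := product r
  refine ⟨c, hc, fun W h0 h2 h3 hW b h hli hb => ?_⟩
  obtain ⟨W', hW'⟩ : ∃ W' : Finset (List ℕ), W' = ((W.erase []).erase [2]).erase [3] := ⟨_, rfl⟩
  have m2 : [2] ∈ W.erase ([] : List ℕ) := Finset.mem_erase.2 ⟨by simp, h2⟩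
  have m3 : [3] ∈ (W.erase ([] : List ℕ)).erase [2] :=
    Finset.mem_erase.2 ⟨by simp, Finset.mem_erase.2 ⟨by simp, h3⟩⟩
  have hcard : W'.card = r := by
    rw [hW', Finset.card_erase_of_mem m3, Finset.card_erase_of_mem m2, Finset.card_erase_of_mem h0, hW]
    omega
  have hsub : ∀ w ∈ W', w ∈ W := fun w hw => by
    rw [hW'] at hw
    exact Finset.mem_of_mem_erase (Finset.mem_of_mem_erase (Finset.mem_of_mem_erase hw))
  have hsplit : ∀ w ∈ W, w = [] ∨ w = [2] ∨ w = [3] ∨ w ∈ W' := by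
    intro w hw
    by_cases c0 : w = []
    · exact Or.inl c0
    by_cases c2 : w = [2]
    · exact Or.inr (Or.inl c2)
    by_cases c3 : w = [3]
    · exact Or.inr (Or.inr (Or.inl c3))
    refine Or.inr (Or.inr (Or.inr ?_))
    rw [hW']
    exact Finset.mem_erase.2 ⟨c3, Finset.mem_erase.2 ⟨c2, Finset.mem_erase.2 ⟨c0, hw⟩⟩⟩
  obtain ⟨ε⟩ : Nonempty (Fin r ≃ {w // w ∈ W'}) := ⟨(Finset.equivFinOfCardEq hcard).symm⟩
  have hli' : LinearIndependent ℤ (fun k => ((![b k ⟨[], h0⟩, b k ⟨[2], h2⟩, b k ⟨[3], h3⟩] : Fin 3 → ℤ),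
      (fun i => b k ⟨(ε i).1, hsub _ (ε i).2⟩ : Fin r → ℤ))) := by
    rw [Fintype.linearIndependent_iff] at hli ⊢
    intro g hg
    apply hli g
    have g1 := congrArg Prod.fst hg
    have g2 := congrArg Prod.snd hg
    rw [Prod.fst_sum] at g1
    rw [Prod.snd_sum] at g2
    funext w
    obtain ⟨w, hw⟩ := w
    rw [Finset.sum_apply]
    rcases hsplit w hw with rfl | rfl | rfl | hw'
    · have := congrFun g1 0
      rw [Finset.sum_apply] at this
      simpa using this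
    · have := congrFun g1 1
      rw [Finset.sum_apply] at this
      simpa using this
    · have := congrFun g1 2
      rw [Finset.sum_apply] at this
      simpa using this
    · have := congrFun g2 (ε.symm ⟨w, hw'⟩)
      rw [Finset.sum_apply] at this
      simpa using this
  have key := h' (fun i => mzv (ε i).1) _ _ h hli' (by
    intro k
    refine ⟨(hb k).1, ?_, fun i => (hb k).2 _⟩
    intro i
    fin_cases i
    · exact (hb k).2 _
    · exact (hb k).2 _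
    · exact (hb k).2 _)
  have hform : ∀ k, form (fun i => mzv (ε i).1) ![b k ⟨[], h0⟩, b k ⟨[2], h2⟩, b k ⟨[3], h3⟩]
      (fun i => b k ⟨(ε i).1, hsub _ (ε i).2⟩) = ∑ w, (b k w : ℝ) * mzv w.1 := by
    intro k
    obtain ⟨F, hF⟩ : ∃ F : List ℕ → ℝ, F = fun w => if hw : w ∈ W then (b k ⟨w, hw⟩ : ℝ) * mzv w else 0 := ⟨_, rfl⟩
    have hFw : ∀ w (hw : w ∈ W), F w = (b k ⟨w, hw⟩ : ℝ) * mzv w := by
      intro w hw
      rw [hF]
      simp only [hw, dif_pos]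
    have s1 : ∑ w : {w // w ∈ W}, (b k w : ℝ) * mzv w.1 = ∑ w ∈ W, F w := by
      rw [← Finset.sum_coe_sort W F]
      exact Finset.sum_congr rfl fun w _ => (hFw w.1 w.2).symm
    have s2 : ∑ w ∈ W, F w = F [] + (F [2] + (F [3] + ∑ w ∈ W', F w)) := by
      rw [hW', Finset.add_sum_erase _ _ m3, Finset.add_sum_erase _ _ m2, Finset.add_sum_erase _ _ h0]
    have s3 : ∑ w ∈ W', F w = ∑ i, F (ε i).1 := by
      rw [← Finset.sum_coe_sort W' F]
      exact (Equiv.sum_comp ε (fun w => F w.1)).symm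
    rw [s1, s2, s3, hFw _ h0, hFw _ h2, hFw _ h3, form]
    have s4 : ∑ i, F (ε i).1 = ∑ i, (b k ⟨(ε i).1, hsub _ (ε i).2⟩ : ℝ) * mzv (ε i).1 :=
      Finset.sum_congr rfl fun i _ => hFw _ _
    rw [s4]
    simp [mzv]
    ring
  simp only [hform] at key
  exact key

/-- near relations between Hoffman elements at one scale are linearly dependent -/
lemma hoffman_scale (r : ℕ) : ∃ c : ℝ, 0 < c ∧ ∀ W : Finset (List ℕ), [] ∈ W → [2] ∈ W → [3] ∈ W →
      W.card = r + 3 → ∀ (X : ℝ), 1 ≤ X → ∀ b : Fin (r + 1) → {w // w ∈ W} → ℤ,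
      (∀ k, (∀ w, |(b k w : ℝ)| ≤ X) ∧ |∑ w, (b k w : ℝ) * mzv w.1| < c / X ^ (228 * r + 227)) →
      ¬ LinearIndependent ℤ b := by
  obtain ⟨c, hc, h⟩ := hoffman r
  refine ⟨c / ((r : ℝ) + 1), by positivity, fun W h0 h2 h3 hW X hX b hb hli => ?_⟩
  exact scale_aux hX _ (h W h0 h2 h3 hW b (fun _ => X) hli (fun k => ⟨hX, (hb k).1⟩))
    (fun k => (hb k).2)

/-- near relations with one further number are sparse -/
lemma sparse (w ρ : ℝ) (hρ : 1 < ρ) (hρw : ρ < (w - 227) / 228) :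
    ∃ C : ℝ, ∀ t X : ℝ, 3 ≤ X →
      (Near t w X).Finite ∧ ((Near t w X).ncard : ℝ) ≤ log (log X) / log ρ + C := by
  obtain ⟨c, hc, hm⟩ := meas
  obtain ⟨C, hC⟩ := Pool.Agent.TH550.NRZ.sparse_unif (m := 2)
    ![1, mzv [2], mzv [3]] 227 c (by norm_num) hc hm w ρ (by
      have h1 : 1 < (w - 227) / 228 := hρ.trans hρw
      rw [lt_div_iff₀ (by norm_num)] at h1
      linarith) hρ (by
      have : (227 : ℝ) + 1 = 228 := by norm_num
      rw [this]
      exact hρw)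
  refine ⟨C, fun t X hX => ?_⟩
  obtain ⟨h1, h2⟩ := hC t X hX
  have e : Near t w X = {v ∈ {v : (Fin 3 → ℤ) × ℤ | 0 < v.2 ∧ Prim v ∧
      |lin ![1, mzv [2], mzv [3]] t v| ≤ ‖v‖ ^ (-w)} | ‖v‖ ≤ X} := by
    ext v
    have e2 : lin ![1, mzv [2], mzv [3]] t v = (v.1 0 : ℝ) + v.1 1 * mzv [2] + v.1 2 * mzv [3] + v.2 * t := by
      rw [lin]
      simp [Fin.sum_univ_three]
    simp only [Near, Set.mem_ofPred_eq, Prim, height, Prod.norm_def, e2]
    tauto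
  rw [e]
  exact ⟨h1, h2⟩

/-- **Near relations between Hoffman elements.**

1. For every `r` there is `c > 0` such that for all real numbers `t_1, …, t_r` (for instance further Hoffman elements)
and all `r + 1` linearly independent integer vectors `(a_k; e_k)` of size at most `h_k`,
`c ∏ h_k ^ (-228) ≤ ∑ |a_{k,0} + a_{k,1} ζ(2) + a_{k,2} ζ(3) + ∑ e_{k,i} t_i| / h_k`.
2. For every `r` there is `c > 0` such that for every finite set `W` of `r + 3` words containing `∅`, `2`, `3` and every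
`X ≥ 1` any `r + 1` integer vectors `(b_w)`, `w ∈ W`, of size at most `X` with
`|∑ b_w ζ(w)| < c X ^ (-(228 r + 227))` are linearly dependent.
3. Let `1 < ρ < (w - 227) / 228`.  There is `C` such that for all real numbers `t` and `X ≥ 3` at most
`log log X / log ρ + C` primitive integer vectors `v = (a_0, a_1, a_2, c)`, `c > 0`, of height at most `X` satisfy
`|a_0 + a_1 ζ(2) + a_2 ζ(3) + c t| ≤ (height v) ^ (-w)`. -/
theorem result :
    (∀ r : ℕ, ∃ c : ℝ, 0 < c ∧ ∀ (t : Fin r → ℝ)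
      (a : Fin (r + 1) → Fin 3 → ℤ) (e : Fin (r + 1) → Fin r → ℤ) (h : Fin (r + 1) → ℝ),
      LinearIndependent ℤ (fun k => (a k, e k)) →
      (∀ k, 1 ≤ h k ∧ (∀ i, |(a k i : ℝ)| ≤ h k) ∧ ∀ i, |(e k i : ℝ)| ≤ h k) →
      c * ∏ k, (h k ^ 228)⁻¹ ≤ ∑ k, |form t (a k) (e k)| / h k) ∧
    (∀ r : ℕ, ∃ c : ℝ, 0 < c ∧ ∀ W : Finset (List ℕ), [] ∈ W → [2] ∈ W → [3] ∈ W →
      W.card = r + 3 → ∀ (X : ℝ), 1 ≤ X → ∀ b : Fin (r + 1) → {w // w ∈ W} → ℤ,
      (∀ k, (∀ w, |(b k w : ℝ)| ≤ X) ∧ |∑ w, (b k w : ℝ) * mzv w.1| < c / X ^ (228 * r + 227)) →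
      ¬ LinearIndependent ℤ b) ∧
    (∀ w ρ : ℝ, 1 < ρ → ρ < (w - 227) / 228 → ∃ C : ℝ, ∀ t X : ℝ, 3 ≤ X →
      (Near t w X).Finite ∧ ((Near t w X).ncard : ℝ) ≤ log (log X) / log ρ + C) :=
  ⟨product, hoffman_scale, fun w ρ hρ hw => sparse w ρ hρ hw⟩

end Pool.Agent.Results.MP_c2d7b4_nt.NearRelations
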