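import Pool.Agent.Results.MP_c2d7b4_nt.NearRelations
import Pool.Agent.H223.PS.MZ

/-!
# Linear combinations of Hoffman elements: ALL coefficient vectors in the residue classes of almost every `p`-adic point, and
near almost every direction

Let `W` be any finite set of words with the words `[]`, `[2]`, `[3]`, for instance words in the letters `2` and `3` (Hoffman
elements), and `r + 3` its size. Linear independence of the multiple zeta values `ζ(w)`, `w ∈ W`, is open as soon as `r ≥ 1`. We
prove lower bounds for `|a + ∑ q_w ζ(w)|` (the sum over the `r + 2` words `w ≠ []` of `W`, `a` any integer)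

1. for ALL integer vectors `q` with `|q_w| ≤ T`, `|q_w - α_w|_p ≤ T ^ (-σ)`, `T` large, for every prime `p` and all
   `α ∈ ℤ_p ^ (r + 2)` outside of a set of Hausdorff dimension at most `r / σ` (so for almost all `α` if `σ > r / (r + 2)`; for
   `σ < 1` there are about `T ^ ((r + 2) (1 - σ))` such vectors `q`),
2. for ALL integer vectors `q` with `|q_w - β_w v_j| ≤ v_j ^ θ`, `j` large, for all `β ∈ ℝ ^ (r + 2)` outside of a set of
   dimension at most `(r + τ) / (1 - θ)`, where `v` is a sequence of exponent of convergence at most `τ` (`0` for `v_j = b ^ j`).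

The bounds are `c T ^ (-(228 r + 227))` and `c v_j ^ (-(228 r + 227))`. The proof uses the theorem of helper307 (`NearRelations`)
that the near relations at one scale span a space of dimension at most `r`: so there are at most `C X ^ r` exceptional `q` of
norm at most `X`, and almost no point is close to infinitely many of them.
-/

set_option autoImplicit false

open MeasureTheory

namespace Pool.Agent.Results.MP_c2d7b4_nt.RelationsInResidueClasses

open NearRelations (mzv)

/-- the nonempty words of `W` -/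
abbrev Words (W : Finset (List ℕ)) : Type := {w : List ℕ // w ∈ W ∧ w ≠ []}

noncomputable instance (W : Finset (List ℕ)) : Fintype (Words W) :=
  Fintype.ofInjective (fun w : Words W => (⟨w.1, w.2.1⟩ : {w // w ∈ W})) fun a b h =>
    Subtype.ext (congrArg (fun x : {w // w ∈ W} => x.1) h)

/-- the number `a + ∑ q_w ζ(w)`, the sum over the nonempty words `w` of `W` -/
noncomputable def value {W : Finset (List ℕ)} (q : Words W → ℤ) (a : ℤ) : ℝ := a + ∑ w : Words W, (q w : ℝ) * mzv w.1

/-- the exponent of convergence of the sequence `v` is at most `τ` -/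
def ExpLe (v : ℕ → ℝ) (τ : ℝ) : Prop := ∀ t : ℝ, τ < t → Summable (fun j : ℕ => (v j) ^ (-t))

/-- the words of `W` are `[]` and the nonempty words -/
noncomputable def eqv {W : Finset (List ℕ)} (h : [] ∈ W) : Option (Words W) ≃ {w // w ∈ W} where
  toFun o := o.elim ⟨[], h⟩ fun w => ⟨w.1, w.2.1⟩
  invFun w := if hw : w.1 = [] then none else some ⟨w.1, w.2, hw⟩
  left_inv o := by
    cases o with
    | none => simp
    | some w => simp [w.2.2]
  right_inv w := by
    by_cases hw : w.1 = []
    · simp only [hw, dif_pos, Option.elim]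
      exact Subtype.ext hw.symm
    · simp only [hw, Option.elim]
      rfl

/-- **Theorem.** Let `W` be a finite set of `r + 3` words which contains `[]`, `[2]` and `[3]`. There is `c > 0` such that (1) for
every prime `p` and `σ > 0`, for all `α ∈ ℤ_p ^ (r + 2)` outside of a set of Hausdorff dimension at most `r / σ` and all large
`T`, for ALL integer vectors `q` with `|q_w| ≤ T`, `|q_w - α_w|_p ≤ T ^ (-σ)` and all integers `a`,
`|a + ∑ q_w ζ(w)| ≥ c / T ^ (228 r + 227)`; (2) for every sequence `v_j ≥ 1` of exponent of convergence at most `τ` and `θ < 1`,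
for all `β ∈ ℝ ^ (r + 2)` outside of a set of dimension at most `(r + τ) / (1 - θ)` there is `c' > 0` such that for all large `j`
and ALL integer vectors `q` with `|q_w - β_w v_j| ≤ v_j ^ θ` and all integers `a`, `|a + ∑ q_w ζ(w)| ≥ c' / v_j ^ (228 r + 227)`.
(3) The sequences `(j + 1) ^ s` and `b ^ j` have exponent of convergence at most `1 / s` and `0`. -/
theorem result :
    (∀ (r : ℕ) (W : Finset (List ℕ)), [] ∈ W → [2] ∈ W → [3] ∈ W → W.card = r + 3 → ∃ c : ℝ, 0 < c ∧
      (∀ (p : ℕ) [Fact p.Prime] (σ : ℝ), 0 < σ → ∃ E : Set (Words W → ℤ_[p]), dimH E ≤ ENNReal.ofReal (r / σ) ∧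
        ∀ α ∉ E, ∃ T₀ : ℝ, ∀ T ≥ T₀, ∀ q : Words W → ℤ,
          (∀ w, |(q w : ℝ)| ≤ T ∧ ‖(q w : ℤ_[p]) - α w‖ ≤ T ^ (-σ)) →
          ∀ a : ℤ, c / T ^ (228 * r + 227) ≤ |value q a|) ∧
      (∀ (v : ℕ → ℝ) (τ θ : ℝ), (∀ j, 1 ≤ v j) → 0 ≤ τ → ExpLe v τ → θ < 1 →
        ∃ E : Set (Words W → ℝ), dimH E ≤ ENNReal.ofReal ((r + τ) / (1 - θ)) ∧
        ∀ β ∉ E, ∃ c' : ℝ, 0 < c' ∧ ∃ j₀ : ℕ, ∀ j ≥ j₀, ∀ q : Words W → ℤ,
          (∀ w, |(q w : ℝ) - β w * v j| ≤ (v j) ^ θ) → ∀ a : ℤ, c' / (v j) ^ (228 * r + 227) ≤ |value q a|)) ∧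
    (∀ s : ℝ, 0 < s → ExpLe (fun j : ℕ => ((j : ℝ) + 1) ^ s) (1 / s)) ∧
    (∀ b : ℝ, 1 < b → ExpLe (fun j : ℕ => b ^ j) 0) := by
  refine ⟨fun r W h0 h2 h3 hcard => ?_, fun s hs => Pool.Agent.V35.WM.expLe_pow s hs,
    fun b hb => Pool.Agent.V35.WM.expLe_geom b hb⟩
  obtain ⟨-, n2, -⟩ := NearRelations.result
  obtain ⟨c, hc, h⟩ := n2 r
  refine Pool.Agent.H223.PS.mz_main (fun w : Words W => mzv w.1) r (228 * r + 227) hc fun X hX b hb hli => ?_
  refine h W h0 h2 h3 hcard X hX (fun k w => b k ((eqv h0).symm w)) (fun k => ⟨fun w => (hb k).1 _, ?_⟩) ?_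
  · have e1 : ∑ w : {w // w ∈ W}, (b k ((eqv h0).symm w) : ℝ) * mzv w.1 =
        (b k none : ℝ) + ∑ w : Words W, (b k (some w) : ℝ) * mzv w.1 := by
      rw [← Equiv.sum_comp (eqv h0), Fintype.sum_option]
      congr 1
      · rw [Equiv.symm_apply_apply]
        show (b k none : ℝ) * mzv [] = _
        rw [mzv, mul_one]
      · refine Finset.sum_congr rfl fun w _ => ?_
        rw [Equiv.symm_apply_apply]
        rfl
    rw [e1]
    exact (hb k).2
  · exact hli.map' (LinearEquiv.funCongrLeft ℤ ℤ (eqv h0).symm).toLinearMap (LinearEquiv.ker _)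

end Pool.Agent.Results.MP_c2d7b4_nt.RelationsInResidueClasses
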